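import Pool.Agent.H.MP_f5ceca_al.Final

/-!
One direction of the conjectured dichotomy: over a field `K` of characteristic zero every variety
of associative algebras which contains `W_K` has an undecidable word problem; moreover one and the
same finite list of relators with integer coefficients works for all fields and all varieties.
-/

namespace Pool.Agent.Results.MP_f5ceca_al.ContainsW

open Pool.Agent.H.MP_f5ceca_al

universe u

/-- A nonempty word in the letters `0, …, k - 1`: the first letter and the list of the others. -/
abbrev Word (k : ℕ) : Type := Fin k × List (Fin k)

/-- A code is a pair of finite lists of nonempty words. -/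
abbrev Code (k : ℕ) : Type := List (Word k) × List (Word k)

/-- The monomial given by a nonempty word. -/
noncomputable def monomial (K : Type u) [Field K] {k : ℕ} (w : Word k) : FreeAlgebra K (Fin k) :=
  FreeAlgebra.ι K w.1 * (w.2.map (FreeAlgebra.ι K)).prod

/-- The element of the free algebra given by a code: the sum of the words in the first list minus
the sum of the words in the second list. -/
noncomputable def value (K : Type u) [Field K] {k : ℕ} (P : Code k) : FreeAlgebra K (Fin k) :=
  (P.1.map (monomial K)).sum - (P.2.map (monomial K)).sum

/-- The (not necessarily unital) associative `K`-algebra `A` satisfies the polynomial identity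
`f = 0`; the value of `f` is computed in the unitization of `A`. -/
def IsIdentity {K : Type u} [Field K] {X : Type} (f : FreeAlgebra K X) (A : Type u)
    [NonUnitalRing A] [Module K A] [IsScalarTower K A A] [SMulCommClass K A A] : Prop :=
  ∀ v : X → A, FreeAlgebra.lift K (fun i => ((v i : A) : Unitization K A)) f = 0

/-- `A` belongs to the variety given by the set `S` of identities. -/
def Satisfies {K : Type u} [Field K] (S : Set (FreeAlgebra K ℕ)) (A : Type u)
    [NonUnitalRing A] [Module K A] [IsScalarTower K A A] [SMulCommClass K A A] : Prop :=
  ∀ f ∈ S, IsIdentity f A

/-- `A` satisfies the identities `x[y,z][t,u]v = 0` and `x[y,z,t]u = 0`. -/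
def IsW (A : Type u) [NonUnitalRing A] : Prop :=
  (∀ x y z t u v : A, x * (y * z - z * y) * (t * u - u * t) * v = 0) ∧
  (∀ x y z t u : A, x * ((y * z - z * y) * t - t * (y * z - z * y)) * u = 0)

/-- The variety given by `S` contains `W_K`. -/
def IncludesW {K : Type u} [Field K] (S : Set (FreeAlgebra K ℕ)) : Prop :=
  ∀ (A : Type u) [NonUnitalRing A] [Module K A] [IsScalarTower K A A] [SMulCommClass K A A],
    IsW A → Satisfies S A

/-- The identities in `k` variables of the variety given by `S`. -/
def identities {K : Type u} [Field K] (S : Set (FreeAlgebra K ℕ)) (k : ℕ) :
    Set (FreeAlgebra K (Fin k)) :=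
  {f | ∀ (A : Type u) [NonUnitalRing A] [Module K A] [IsScalarTower K A A]
    [SMulCommClass K A A], Satisfies S A → IsIdentity f A}

/-- There are a number `k` of generators and a finite list `R` of relators such that for every
field `K` of characteristic zero and every variety `V` of associative `K`-algebras containing `W_K`
the algebra presented in `V` by these generators and relators has an undecidable word problem. -/
theorem result : ∃ (k : ℕ) (R : List (Code k)), ∀ (K : Type u) [Field K] [CharZero K]
    (S : Set (FreeAlgebra K ℕ)), IncludesW S →
    ¬ ComputablePred fun P : Code k =>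
      value K P ∈ TwoSidedIdeal.span (identities S k ∪ {g | ∃ r ∈ R, value K r = g}) := by
  obtain ⟨k, R, h⟩ := master
  refine ⟨k, R, fun K _ _ S hS => h K (identities S k) ?_⟩
  intro A _ _ _ _ h1 h2 g hg v
  exact hg A (hS A ⟨h1, h2⟩) v

end Pool.Agent.Results.MP_f5ceca_al.ContainsW
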